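import Pool.Agent.H20.MR.Main

/-!
MP_1c1251_nt: the Mazur-Rubin formula for `K/L` follows from the formula for the cyclic
subextensions `K'/L` of prime power degree, for all `K/L` if `|V'| - |V| ≤ 3`, and for all
`V, V'` if `Gal(K/L)` has squarefree exponent.

`G = Gal(K/k)`, `H = Gal(K/L)`, `U` = the `(S,T)`-units of `K`, a subgroup `J` of `H` stands for
the intermediate field `K^J`, `ε J` for the Rubin-Stark element of `K^J` and `∑ e h ⊗ h` for the
right hand side of the formula for `K/L`.
-/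

set_option autoImplicit false

namespace Pool.Agent.Results.MP_1c1251_nt.CyclicReduction

open Pool.Agent.H20.MR

theorem result {G : Type} [CommGroup G] [Finite G] (H : Subgroup G)
    (U : Type) [AddCommGroup U] [Module (ZG G) U] (d r : ℕ)
    (hH : ∀ p : ℕ, p.Prime → p ∣ Nat.card H →
      d ≤ p + 1 ∨ (∀ P : Sylow p H, IsCyclic P) ∨ ¬ p ^ 2 ∣ Monoid.exponent H)
    (ε : ∀ J : Subgroup H, Rub H U r J) (hε : NormRelation U ε)
    (e : H → Rub H U r (⊤ : Subgroup H))
    (hcyc : ∀ J : Subgroup H, IsCyclic (H ⧸ J) →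
      (∃ p k : ℕ, p.Prime ∧ Nat.card (H ⧸ J) = p ^ k) → MRFormula U d ε e J) :
    MRFormula U d ε e ⊥ :=
  reduction d hH ε hε e hcyc

end Pool.Agent.Results.MP_1c1251_nt.CyclicReduction
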